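import Pool.Agent.helper27.SY.Spec

/-!
# Project sy (MP_5628fe_nt): module MSQ (mean square of the combined remainder)
-/

set_option autoImplicit false

namespace Pool.Agent.SY

open Finset ArithmeticFunction Pool.Agent.SX Pool.Agent.helper85.BVP

lemma MSQ_sum (D : ℕ) (f : ℕ → ℕ → ℝ) (hf : ∀ q a, 0 ≤ f q a) :
    ∑ j ∈ JJ D, f j.1 j.2 ≤ ∑ q ∈ Icc 2 D, ∑ a ∈ Ico 1 q, f q a := by
  have h1 : JJ D ⊆ ((Icc 2 D) ×ˢ (range D)).filter (fun j : ℕ × ℕ => 1 ≤ j.2 ∧ j.2 < j.1) := by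
    intro j hj
    unfold JJ at hj
    rw [mem_filter] at hj ⊢
    exact ⟨hj.1, hj.2.1, hj.2.2.1⟩
  refine (sum_le_sum_of_subset_of_nonneg h1 fun j _ _ => hf _ _).trans ?_
  rw [sum_filter, sum_product]
  refine sum_le_sum fun q hq => ?_
  rw [← sum_filter]
  refine sum_le_sum_of_subset_of_nonneg ?_ fun a _ _ => hf _ _
  intro a ha
  rw [mem_filter] at ha
  rw [mem_Ico]
  exact ha.2

lemma MSQ_harm (D : ℕ) : ∑ q ∈ Icc 2 D, 1 / (q : ℝ) ≤ 1 + Real.log D := by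
  have h1 := harmonic_le_one_add_log D
  refine le_trans ?_ h1
  rw [harmonic_eq_sum_Icc]
  push_cast
  simp only [one_div]
  refine sum_le_sum_of_subset_of_nonneg ?_ fun a _ _ => by positivity
  intro a ha
  rw [mem_Icc] at ha ⊢
  omega

theorem MSQ (hREX : REX_stmt) (hFSP : FSP_stmt) (hGSQ : GSQ_stmt) : MSQ_stmt := by
  intro C P D K L t hD ht hDL hP hC1 hC2 hC3
  obtain ⟨b, hb, hRR⟩ := hREX C P D K t hD ht hP hC1 hC2 hC3
  have hDR : (1 : ℝ) ≤ D := by exact_mod_cast hD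
  have hD0 : (0 : ℝ) < D := by linarith
  have hL1 : 1 ≤ L := le_trans (Nat.one_le_pow _ _ hD) hDL
  have hLR : (0 : ℝ) < L := by exact_mod_cast hL1
  have hDLR : (D : ℝ) ^ 2 ≤ L := by exact_mod_cast hDL
  have hlog : 0 ≤ Real.log D := Real.log_nonneg hDR
  have hdual := dual (JJ D) fr (1 / (D : ℝ) ^ 2) (by positivity)
    (fun j hj k hk hjk => hFSP D j hj k hk hjk) b 0 L
  have h1 : ∀ n : ℕ, ‖∑ j ∈ JJ D, b j * ex ((((0 : ℤ) + (n : ℤ) : ℤ) : ℝ) * fr j)‖ ^ 2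
      = RR C P K n ^ 2 := by
    intro n
    have h2 := hRR n
    have h3 : ∑ j ∈ JJ D, b j * ex ((((0 : ℤ) + (n : ℤ) : ℤ) : ℝ) * fr j)
        = ((RR C P K n : ℝ) : ℂ) := by
      rw [h2]
      refine sum_congr rfl fun j _ => ?_
      congr 3
      push_cast
      ring
    rw [h3, Complex.norm_real, Real.norm_eq_abs, sq_abs]
  simp_rw [h1] at hdual
  -- the sum of the coefficients
  have hS : ∑ j ∈ JJ D, ‖b j‖ ^ 2 ≤ K * t ^ 2 * (1 + Real.log D) ^ 4 := by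
    set A : ℝ := t * (1 + Real.log D) with hA
    have hA0 : 0 ≤ A := by positivity
    have h2 : ∀ j ∈ JJ D, ‖b j‖ ^ 2 ≤
        (fun q a : ℕ => A ^ 2 * (1 / (q : ℝ) ^ 2 * ‖GG K ((a : ℝ) / q)‖ ^ 2)) j.1 j.2 := by
      intro j hj
      have h3 := hb j hj
      calc ‖b j‖ ^ 2 ≤ (t * (1 + Real.log D) / j.1 * ‖GG K (fr j)‖) ^ 2 := by
            gcongr
        _ = A ^ 2 * (1 / (j.1 : ℝ) ^ 2 * ‖GG K ((j.2 : ℝ) / j.1)‖ ^ 2) := by
            rw [hA]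
            unfold fr
            ring
    refine (sum_le_sum h2).trans ?_
    refine (MSQ_sum D (fun q a : ℕ => A ^ 2 * (1 / (q : ℝ) ^ 2 * ‖GG K ((a : ℝ) / q)‖ ^ 2))
      fun q a => by positivity).trans ?_
    have h3 : ∀ q ∈ Icc 2 D, ∑ a ∈ Ico 1 q, A ^ 2 * (1 / (q : ℝ) ^ 2 * ‖GG K ((a : ℝ) / q)‖ ^ 2)
        ≤ A ^ 2 * K * (1 + Real.log D) * (1 / (q : ℝ)) := by
      intro q hq
      rw [mem_Icc] at hq
      have hq0 : (0 : ℝ) < q := by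
        have : 0 < q := by omega
        exact_mod_cast this
      have hqD : Real.log q ≤ Real.log D := Real.log_le_log hq0 (by exact_mod_cast hq.2)
      rw [← mul_sum, ← mul_sum]
      calc A ^ 2 * (1 / (q : ℝ) ^ 2 * ∑ a ∈ Ico 1 q, ‖GG K ((a : ℝ) / q)‖ ^ 2)
          ≤ A ^ 2 * (1 / (q : ℝ) ^ 2 * ((K : ℝ) * q * (1 + Real.log q))) := by
            gcongr
            exact hGSQ K q hq.1
        _ ≤ A ^ 2 * (1 / (q : ℝ) ^ 2 * ((K : ℝ) * q * (1 + Real.log D))) := by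
            gcongr
        _ = A ^ 2 * K * (1 + Real.log D) * (1 / (q : ℝ)) := by
            field_simp
    refine (sum_le_sum h3).trans ?_
    rw [← mul_sum]
    calc A ^ 2 * K * (1 + Real.log D) * ∑ q ∈ Icc 2 D, 1 / (q : ℝ)
        ≤ A ^ 2 * K * (1 + Real.log D) * (1 + Real.log D) := by
          gcongr
          exact MSQ_harm D
      _ = K * t ^ 2 * (1 + Real.log D) ^ 4 := by rw [hA]; ring
  have h4 : 1 / (1 / (D : ℝ) ^ 2) ^ 2 ≤ (L : ℝ) ^ 2 := by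
    have h5 : 1 / (1 / (D : ℝ) ^ 2) ^ 2 = ((D : ℝ) ^ 2) ^ 2 := by
      field_simp
    rw [h5]
    gcongr
  have h5 : (L : ℝ) * ∑ y ∈ range (2 * L), RR C P K y ^ 2 ≤
      (L : ℝ) * (5 * L * K * t ^ 2 * (1 + Real.log D) ^ 4) := by
    have hS0 : 0 ≤ ∑ j ∈ JJ D, ‖b j‖ ^ 2 := sum_nonneg fun j _ => by positivity
    calc (L : ℝ) * ∑ y ∈ range (2 * L), RR C P K y ^ 2
        ≤ (4 * (L : ℝ) ^ 2 + 1 / (1 / (D : ℝ) ^ 2) ^ 2) * ∑ j ∈ JJ D, ‖b j‖ ^ 2 := hdual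
      _ ≤ (4 * (L : ℝ) ^ 2 + (L : ℝ) ^ 2) * ∑ j ∈ JJ D, ‖b j‖ ^ 2 := by gcongr
      _ ≤ (4 * (L : ℝ) ^ 2 + (L : ℝ) ^ 2) * (K * t ^ 2 * (1 + Real.log D) ^ 4) := by gcongr
      _ = (L : ℝ) * (5 * L * K * t ^ 2 * (1 + Real.log D) ^ 4) := by ring
  exact le_of_mul_le_mul_left h5 hLR

end Pool.Agent.SY
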